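import Pool.Agent.H29.RS.Targets

/-!
# Multiplicativity of the coefficients and their values at prime powers

The first part follows `Pool/Agent/H36/RT/ACM.lean`.
-/

set_option autoImplicit false

open Complex MeasureTheory Set Filter Topology

namespace Pool.Agent.H69.RS

open Pool.Agent.H29.RS Pool.Agent.H25.DP Pool.Agent.H25.DL

variable {ι : Type} [Fintype ι]

omit [Fintype ι] in
lemma aa_pos {f : ι → Fac} (hf : ID f) (l : ι) : 1 ≤ aa f l := by
  obtain ⟨a, ha, h⟩ := hf l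
  unfold aa
  rw [h, Nat.floor_natCast]
  exact ha

open Classical in
/-- the tuples of divisors with a given value of `nn` -/
noncomputable def dn (f : ι → Fac) (k : ℕ) : Finset (ι → ℕ) :=
  (Fintype.piFinset fun _ : ι => k.divisors).filter (fun z => nn f z = k)

lemma bc_eq (f : ι → Fac) (k : ℕ) : bc f k = ∑ z ∈ dn f k, Pool.Agent.H25.DP.co f z := rfl

lemma dvd_nn {f : ι → Fac} (hf : ID f) (z : ι → ℕ) (l : ι) : z l ∣ nn f z :=
  (dvd_pow_self (z l) (by have := aa_pos hf l; omega)).trans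
    (Finset.dvd_prod_of_mem (fun l => z l ^ aa f l) (Finset.mem_univ l))

lemma mem_dn {f : ι → Fac} (hf : ID f) {k : ℕ} (hk : k ≠ 0) (z : ι → ℕ) :
    z ∈ dn f k ↔ nn f z = k := by
  classical
  unfold dn
  rw [Finset.mem_filter, Fintype.mem_piFinset]
  constructor
  · exact fun h => h.2
  · intro h
    refine ⟨fun l => ?_, h⟩
    rw [Nat.mem_divisors]
    refine ⟨?_, hk⟩
    rw [← h]
    exact dvd_nn hf z l

lemma co_mul (f : ι → Fac) (hf : ∀ l, ∀ m n : ℕ, Nat.Coprime m n →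
    (f l).c (m * n) = (f l).c m * (f l).c n) {x y : ι → ℕ}
    (hxy : ∀ l, Nat.Coprime (x l) (y l)) :
    Pool.Agent.H25.DP.co f (x * y) = Pool.Agent.H25.DP.co f x * Pool.Agent.H25.DP.co f y := by
  unfold Pool.Agent.H25.DP.co
  rw [← Finset.prod_mul_distrib]
  refine Finset.prod_congr rfl fun l _ => ?_
  rw [Pi.mul_apply, hf l _ _ (hxy l), Nat.cast_mul, Complex.natCast_mul_natCast_cpow]
  ring

lemma nn_mul (f : ι → Fac) (x y : ι → ℕ) : nn f (x * y) = nn f x * nn f y := by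
  unfold nn
  rw [← Finset.prod_mul_distrib]
  refine Finset.prod_congr rfl fun l _ => ?_
  rw [Pi.mul_apply, mul_pow]

lemma bc_one {f : ι → Fac} (hf : ID f) : bc f 1 = 1 := by
  rw [bc_eq]
  have : dn f 1 = {1} := by
    ext z
    rw [mem_dn hf one_ne_zero, Finset.mem_singleton]
    constructor
    · intro h
      funext l
      have h1 := dvd_nn hf z l
      rw [h] at h1
      exact Nat.dvd_one.1 h1
    · rintro rfl
      unfold nn
      simp
  rw [this, Finset.sum_singleton]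
  unfold Pool.Agent.H25.DP.co
  refine Finset.prod_eq_one fun l _ => ?_
  rw [Pi.one_apply, (f l).c_one]
  simp

lemma nn_gcd {f : ι → Fac} (hf : ID f) {m n : ℕ} (hm : m ≠ 0) (hn : n ≠ 0)
    (h : Nat.Coprime m n) {z : ι → ℕ} (hz : nn f z = m * n) :
    nn f (fun l => Nat.gcd (z l) m) = m ∧ nn f (fun l => Nat.gcd (z l) n) = n := by
  have h0 : ∀ l, Nat.gcd (z l) m * Nat.gcd (z l) n = z l := by
    intro l
    rw [← Nat.Coprime.gcd_mul _ h]
    refine Nat.gcd_eq_left ?_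
    rw [← hz]
    exact dvd_nn hf z l
  have h1 : nn f (fun l => Nat.gcd (z l) m) * nn f (fun l => Nat.gcd (z l) n) = m * n := by
    rw [← nn_mul, ← hz]
    unfold nn
    refine Finset.prod_congr rfl fun l _ => ?_
    rw [Pi.mul_apply, h0 l]
  have h2 : Nat.Coprime (nn f (fun l => Nat.gcd (z l) m)) n :=
    Nat.Coprime.prod_left fun l _ => Nat.Coprime.pow_left _
      (Nat.Coprime.coprime_dvd_left (Nat.gcd_dvd_right _ _) h)
  have h3 : Nat.Coprime (nn f (fun l => Nat.gcd (z l) n)) m :=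
    Nat.Coprime.prod_left fun l _ => Nat.Coprime.pow_left _
      (Nat.Coprime.coprime_dvd_left (Nat.gcd_dvd_right _ _) h.symm)
  obtain ⟨a, ha⟩ : nn f (fun l => Nat.gcd (z l) m) ∣ m :=
    h2.dvd_of_dvd_mul_right (Dvd.intro _ h1)
  obtain ⟨b, hb⟩ : nn f (fun l => Nat.gcd (z l) n) ∣ n :=
    h3.dvd_of_dvd_mul_left (Dvd.intro_left _ h1)
  set X := nn f (fun l => Nat.gcd (z l) m)
  set Y := nn f (fun l => Nat.gcd (z l) n)
  have hX : X ≠ 0 := by
    intro h
    rw [h, zero_mul] at ha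
    exact hm ha
  have hY : Y ≠ 0 := by
    intro h
    rw [h, zero_mul] at hb
    exact hn hb
  have h4 : X * Y * (a * b) = X * Y * 1 := by
    calc X * Y * (a * b) = (X * a) * (Y * b) := by ring
      _ = m * n := by rw [← ha, ← hb]
      _ = X * Y * 1 := by rw [mul_one, h1]
  have h5 : a * b = 1 := Nat.eq_of_mul_eq_mul_left (Nat.mul_pos (Nat.pos_of_ne_zero hX)
    (Nat.pos_of_ne_zero hY)) h4
  have ha1 : a = 1 := Nat.eq_one_of_mul_eq_one_right h5
  have hb1 : b = 1 := Nat.eq_one_of_mul_eq_one_left h5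
  rw [ha1, mul_one] at ha
  rw [hb1, mul_one] at hb
  exact ⟨ha.symm, hb.symm⟩

lemma bc_mul {f : ι → Fac} (hd : ID f) (hf : ∀ l, ∀ m n : ℕ, Nat.Coprime m n →
    (f l).c (m * n) = (f l).c m * (f l).c n) (m n : ℕ) (h : Nat.Coprime m n) :
    bc f (m * n) = bc f m * bc f n := by
  rcases Nat.eq_zero_or_pos m with rfl | hm
  · rw [Nat.coprime_zero_left] at h
    rw [h, Nat.mul_one, bc_one hd, mul_one]
  rcases Nat.eq_zero_or_pos n with rfl | hn
  · rw [Nat.coprime_zero_right] at h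
    rw [h, Nat.one_mul, bc_one hd, one_mul]
  have hm0 := hm.ne'
  have hn0 := hn.ne'
  have hmn : m * n ≠ 0 := Nat.mul_ne_zero hm0 hn0
  rw [bc_eq, bc_eq, bc_eq, Finset.sum_mul_sum, ← Finset.sum_product']
  symm
  refine Finset.sum_nbij' (fun q => q.1 * q.2)
    (fun z => (fun l => Nat.gcd (z l) m, fun l => Nat.gcd (z l) n)) ?_ ?_ ?_ ?_ ?_
  · rintro ⟨x, y⟩ hxy
    rw [Finset.mem_product, mem_dn hd hm0, mem_dn hd hn0] at hxy
    rw [mem_dn hd hmn, nn_mul, hxy.1, hxy.2]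
  · intro z hz
    rw [mem_dn hd hmn] at hz
    rw [Finset.mem_product, mem_dn hd hm0, mem_dn hd hn0]
    exact nn_gcd hd hm0 hn0 h hz
  · rintro ⟨x, y⟩ hxy
    rw [Finset.mem_product, mem_dn hd hm0, mem_dn hd hn0] at hxy
    simp only at hxy
    have hx : ∀ l, x l ∣ m := by
      intro l
      rw [← hxy.1]
      exact dvd_nn hd x l
    have hy : ∀ l, y l ∣ n := by
      intro l
      rw [← hxy.2]
      exact dvd_nn hd y l
    simp only [Pi.mul_apply, Prod.mk.injEq]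
    constructor
    · funext l
      have hc : Nat.Coprime (y l) m := (Nat.Coprime.coprime_dvd_right (hy l) h).symm
      rw [Nat.Coprime.gcd_mul_right_cancel _ hc]
      exact Nat.gcd_eq_left (hx l)
    · funext l
      have hc : Nat.Coprime (x l) n := Nat.Coprime.coprime_dvd_left (hx l) h
      rw [Nat.Coprime.gcd_mul_left_cancel _ hc]
      exact Nat.gcd_eq_left (hy l)
  · intro z hz
    rw [mem_dn hd hmn] at hz
    funext l
    simp only [Pi.mul_apply]
    rw [← Nat.Coprime.gcd_mul _ h]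
    refine Nat.gcd_eq_left ?_
    rw [← hz]
    exact dvd_nn hd z l
  · rintro ⟨x, y⟩ hxy
    rw [Finset.mem_product, mem_dn hd hm0, mem_dn hd hn0] at hxy
    simp only at hxy
    refine (co_mul f hf fun l => ?_).symm
    refine Nat.Coprime.coprime_dvd_left ?_ (Nat.Coprime.coprime_dvd_right ?_ h)
    · rw [← hxy.1]
      exact dvd_nn hd x l
    · rw [← hxy.2]
      exact dvd_nn hd y l

/-! ### Prime powers -/

open Classical in
/-- the exponents of the tuples of prime powers -/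
noncomputable def vs (f : ι → Fac) (v : ℕ) : Finset (ι → ℕ) :=
  (Fintype.piFinset fun _ : ι => Finset.range (v + 1)).filter (fun u => ∑ l, aa f l * u l = v)

lemma mem_vs {f : ι → Fac} (hf : ID f) (v : ℕ) (u : ι → ℕ) :
    u ∈ vs f v ↔ ∑ l, aa f l * u l = v := by
  classical
  unfold vs
  rw [Finset.mem_filter, Fintype.mem_piFinset]
  constructor
  · exact fun h => h.2
  · intro h
    refine ⟨fun l => ?_, h⟩
    rw [Finset.mem_range]
    have h1 : aa f l * u l ≤ ∑ l, aa f l * u l :=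
      Finset.single_le_sum (f := fun l => aa f l * u l) (fun _ _ => Nat.zero_le _)
        (Finset.mem_univ l)
    have h2 := aa_pos hf l
    have h3 : 1 * u l ≤ aa f l * u l := Nat.mul_le_mul_right _ h2
    omega

lemma card_vs (f : ι → Fac) (v : ℕ) : (vs f v).card ≤ (v + 1) ^ Fintype.card ι := by
  classical
  unfold vs
  refine (Finset.card_filter_le _ _).trans ?_
  rw [Fintype.card_piFinset]
  simp

lemma nn_pow (f : ι → Fac) (p : ℕ) (u : ι → ℕ) :
    nn f (fun l => p ^ u l) = p ^ ∑ l, aa f l * u l := by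
  unfold nn
  rw [← Finset.prod_pow_eq_pow_sum]
  refine Finset.prod_congr rfl fun l _ => ?_
  rw [← pow_mul, mul_comm]

lemma bc_pow {f : ι → Fac} (hf : ID f) {p : ℕ} (hp : p.Prime) (v : ℕ) :
    bc f (p ^ v) = ∑ u ∈ vs f v, Pool.Agent.H25.DP.co f (fun l => p ^ u l) := by
  rw [bc_eq]
  symm
  have hpv : p ^ v ≠ 0 := pow_ne_zero _ hp.ne_zero
  refine Finset.sum_bij (fun u _ => fun l => p ^ u l) ?_ ?_ ?_ ?_
  · intro u hu
    rw [mem_vs hf] at hu
    rw [mem_dn hf hpv, nn_pow, hu]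
  · intro u _ u' _ h
    funext l
    exact Nat.pow_right_injective hp.two_le (congrFun h l)
  · intro z hz
    rw [mem_dn hf hpv] at hz
    have h1 : ∀ l, ∃ k, z l = p ^ k := by
      intro l
      have h2 := dvd_nn hf z l
      rw [hz, Nat.dvd_prime_pow hp] at h2
      obtain ⟨k, -, hk⟩ := h2
      exact ⟨k, hk⟩
    choose u hu using h1
    have h3 : z = fun l => p ^ u l := funext hu
    refine ⟨u, ?_, h3.symm⟩
    rw [h3, nn_pow] at hz
    rw [mem_vs hf]
    exact Nat.pow_right_injective hp.two_le hz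
  · intro u _
    rfl

lemma norm_co (f : ι → Fac) {p : ℕ} (hp : p.Prime) (u : ι → ℕ) :
    ‖Pool.Agent.H25.DP.co f (fun l => p ^ u l)‖ ≤ (p : ℝ) ^ (-((∑ l, u l : ℕ) : ℝ) / 2) := by
  unfold Pool.Agent.H25.DP.co
  rw [norm_prod]
  have hp0 : (0 : ℝ) < p := by exact_mod_cast hp.pos
  have h1 : (p : ℝ) ^ (-((∑ l, u l : ℕ) : ℝ) / 2) = ∏ l, (p : ℝ) ^ (-((u l : ℕ) : ℝ) / 2) := by
    rw [← Real.rpow_sum_of_pos hp0]
    congr 1
    push_cast
    rw [← Finset.sum_div, Finset.sum_neg_distrib]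
  rw [h1]
  refine Finset.prod_le_prod (fun _ _ => norm_nonneg _) fun l _ => ?_
  rw [norm_mul]
  have h2 : ‖((p ^ u l : ℕ) : ℂ) ^ (-(1 / 2 + (f l).τ * I) : ℂ)‖ =
      (p : ℝ) ^ (-((u l : ℕ) : ℝ) / 2) := by
    rw [Complex.norm_natCast_cpow_of_pos (pow_pos hp.pos _)]
    have h3 : (-(1 / 2 + (f l).τ * I) : ℂ).re = -(1 / 2) := by
      simp
    rw [h3]
    push_cast
    rw [← Real.rpow_natCast, ← Real.rpow_mul hp0.le]
    congr 1
    ring
  rw [h2]
  exact mul_le_of_le_one_left (Real.rpow_nonneg hp0.le _) ((f l).c_le _)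

lemma one_of_sum {u : ι → ℕ} (h : ∑ l, u l = 1) [DecidableEq ι] :
    ∃ l, u = Pi.single l 1 := by
  have h0 : ∃ l, u l ≠ 0 := by
    by_contra hh
    push Not at hh
    rw [Finset.sum_eq_zero (fun l _ => hh l)] at h
    omega
  obtain ⟨l, hl⟩ := h0
  refine ⟨l, ?_⟩
  have h1 := Finset.add_sum_erase Finset.univ u (Finset.mem_univ l)
  rw [h] at h1
  have h2 : u l = 1 := by omega
  have h3 : ∑ x ∈ Finset.univ.erase l, u x = 0 := by omega
  funext x
  rcases eq_or_ne x l with rfl | hx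
  · rw [Pi.single_eq_same, h2]
  · rw [Pi.single_eq_of_ne hx]
    exact (Finset.sum_eq_zero_iff.1 h3) x (Finset.mem_erase.2 ⟨hx, Finset.mem_univ x⟩)

lemma co_single (f : ι → Fac) [DecidableEq ι] {p : ℕ} (hp : p.Prime) (l : ι) :
    Pool.Agent.H25.DP.co f (fun i => p ^ (Pi.single l 1 : ι → ℕ) i) =
      (((p : ℝ) ^ (-(1 / 2) : ℝ) : ℝ) : ℂ) * ((f l).c p * (p : ℂ) ^ (-((f l).τ * I) : ℂ)) := by
  unfold Pool.Agent.H25.DP.co
  rw [Finset.prod_eq_single l]
  · simp only [Pi.single_eq_same, pow_one]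
    have hp0 : (p : ℂ) ≠ 0 := by exact_mod_cast hp.ne_zero
    have h1 : (-(1 / 2 + (f l).τ * I) : ℂ) = ((-(1 / 2) : ℝ) : ℂ) + -((f l).τ * I) := by
      push_cast
      ring
    rw [h1, Complex.cpow_add _ _ hp0, Complex.ofReal_cpow (Nat.cast_nonneg p)]
    push_cast
    ring
  · intro x _ hx
    simp only [Pi.single_eq_of_ne hx, pow_zero, (f x).c_one]
    simp
  · intro h
    exact absurd (Finset.mem_univ l) h

open Classical in
lemma main_part {f : ι → Fac} (hf : ID f) {p : ℕ} (hp : p.Prime) (v : ℕ) :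
    ∑ u ∈ (vs f v).filter (fun u => ∑ l, u l = 1), Pool.Agent.H25.DP.co f (fun l => p ^ u l) =
      (((p : ℝ) ^ (-(1 / 2) : ℝ) : ℝ) : ℂ) *
        ∑ l ∈ Finset.univ.filter (fun l => aa f l = v),
          (f l).c p * (p : ℂ) ^ (-((f l).τ * I) : ℂ) := by
  rw [Finset.mul_sum]
  symm
  have key : ∀ l : ι, ∑ x, aa f x * (Pi.single l 1 : ι → ℕ) x = aa f l := by
    intro l
    rw [Finset.sum_eq_single l]
    · rw [Pi.single_eq_same, mul_one]
    · intro x _ hx
      rw [Pi.single_eq_of_ne hx, mul_zero]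
    · intro h
      exact absurd (Finset.mem_univ l) h
  refine Finset.sum_bij (fun l _ => (Pi.single l 1 : ι → ℕ)) ?_ ?_ ?_ ?_
  · intro l hl
    rw [Finset.mem_filter] at hl ⊢
    refine ⟨?_, ?_⟩
    · rw [mem_vs hf, key, hl.2]
    · rw [Finset.sum_pi_single']
      simp
  · intro l _ l' _ h
    by_contra hne
    have := congrFun h l
    rw [Pi.single_eq_same, Pi.single_eq_of_ne hne] at this
    exact one_ne_zero this
  · intro u hu
    rw [Finset.mem_filter, mem_vs hf] at hu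
    obtain ⟨l, rfl⟩ := one_of_sum hu.2
    refine ⟨l, ?_, rfl⟩
    rw [Finset.mem_filter]
    refine ⟨Finset.mem_univ l, ?_⟩
    rw [← hu.1, key]
  · intro l _
    exact (co_single f hp l).symm

lemma bound_big {f : ι → Fac} {p : ℕ} (hp : p.Prime) {u : ι → ℕ} {w : ℝ}
    (h : w ≤ ((∑ l, u l : ℕ) : ℝ)) : ‖Pool.Agent.H25.DP.co f (fun l => p ^ u l)‖ ≤ (p : ℝ) ^ (-w / 2) := by
  refine (norm_co f hp u).trans ?_
  have hp1 : (1 : ℝ) ≤ p := by exact_mod_cast hp.one_lt.le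
  refine Real.rpow_le_rpow_of_exponent_le hp1 ?_
  linarith

lemma sum_pos_of {f : ι → Fac} {v : ℕ} (hv : 1 ≤ v) {u : ι → ℕ}
    (h : ∑ l, aa f l * u l = v) : 1 ≤ ∑ l, u l := by
  by_contra hh
  have h1 : ∑ l, u l = 0 := by omega
  rw [Finset.sum_eq_zero_iff] at h1
  have h2 : ∑ l, aa f l * u l = 0 := Finset.sum_eq_zero fun l hl => by rw [h1 l hl, mul_zero]
  omega

lemma small_v {f : ι → Fac} (hf : ID f) {p : ℕ} (hp : p.Prime) (v : ℕ) (hv : 1 ≤ v) :
    ‖bc f (p ^ v) - ∑ u ∈ (vs f v).filter (fun u => ∑ l, u l = 1),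
      Pool.Agent.H25.DP.co f (fun l => p ^ u l)‖ ≤ ((v : ℝ) + 1) ^ Fintype.card ι / p := by
  rw [bc_pow hf hp, ← Finset.sum_filter_add_sum_filter_not (vs f v) (fun u => ∑ l, u l = 1),
    add_sub_cancel_left]
  refine (norm_sum_le _ _).trans ?_
  have hp0 : (0 : ℝ) < p := by exact_mod_cast hp.pos
  have h1 : ∀ u ∈ (vs f v).filter (fun u => ¬ ∑ l, u l = 1),
      ‖Pool.Agent.H25.DP.co f (fun l => p ^ u l)‖ ≤ 1 / p := by
    intro u hu
    rw [Finset.mem_filter, mem_vs hf] at hu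
    have h2 := sum_pos_of hv hu.1
    have h3 : 2 ≤ ∑ l, u l := by
      have := hu.2
      omega
    have h4 : (2 : ℝ) ≤ ((∑ l, u l : ℕ) : ℝ) := by exact_mod_cast h3
    refine (bound_big hp h4).trans (le_of_eq ?_)
    rw [show (-(2 : ℝ) / 2) = -1 by norm_num, Real.rpow_neg_one, one_div]
  refine (Finset.sum_le_card_nsmul _ _ _ h1).trans ?_
  rw [nsmul_eq_mul, mul_one_div]
  refine div_le_div_of_nonneg_right ?_ hp0.le
  have h5 : ((vs f v).filter (fun u => ¬ ∑ l, u l = 1)).card ≤ (v + 1) ^ Fintype.card ι :=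
    (Finset.card_filter_le _ _).trans (card_vs f v)
  exact_mod_cast h5

lemma large_v {f : ι → Fac} (hf : ID f) {A : ℕ} (hA1 : 1 ≤ A) (hA : ∀ l, aa f l ≤ A) {p : ℕ}
    (hp : p.Prime) (v : ℕ) (hv : A < v) :
    ‖bc f (p ^ v)‖ ≤ ((v : ℝ) + 1) ^ Fintype.card ι * (p : ℝ) ^ (-(max 2 ((v : ℝ) / A)) / 2) := by
  rw [bc_pow hf hp]
  refine (norm_sum_le _ _).trans ?_
  have hp0 : (0 : ℝ) < p := by exact_mod_cast hp.pos
  have hA0 : (0 : ℝ) < A := by exact_mod_cast hA1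
  have h1 : ∀ u ∈ vs f v,
      ‖Pool.Agent.H25.DP.co f (fun l => p ^ u l)‖ ≤ (p : ℝ) ^ (-(max 2 ((v : ℝ) / A)) / 2) := by
    intro u hu
    rw [mem_vs hf] at hu
    have h2 : v ≤ A * ∑ l, u l := by
      rw [← hu, Finset.mul_sum]
      exact Finset.sum_le_sum fun l _ => Nat.mul_le_mul_right _ (hA l)
    have h3 : 2 ≤ ∑ l, u l := by
      by_contra hh
      have h4 : ∑ l, u l ≤ 1 := by omega
      have h5 : A * ∑ l, u l ≤ A * 1 := Nat.mul_le_mul_left _ h4
      omega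
    refine bound_big hp (max_le (by exact_mod_cast h3) ?_)
    rw [div_le_iff₀ hA0, mul_comm]
    exact_mod_cast h2
  refine (Finset.sum_le_card_nsmul _ _ _ h1).trans ?_
  rw [nsmul_eq_mul]
  refine mul_le_mul_of_nonneg_right ?_ (Real.rpow_nonneg hp0.le _)
  exact_mod_cast card_vs f v

lemma large_sq {f : ι → Fac} (hf : ID f) {A : ℕ} (hA1 : 1 ≤ A) (hA : ∀ l, aa f l ≤ A) {p : ℕ}
    (hp : p.Prime) (v : ℕ) (hv : A < v) :
    ‖bc f (p ^ v)‖ ^ 2 ≤ ((v : ℝ) + 1) ^ (2 * Fintype.card ι) * ((p : ℝ) ^ (-(3 / 2) : ℝ) *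
      (2 : ℝ) ^ (-((v : ℝ) / A) / 4)) := by
  have hp0 : (0 : ℝ) < p := by exact_mod_cast hp.pos
  have hp2 : (2 : ℝ) ≤ p := by exact_mod_cast hp.two_le
  have hA0 : (0 : ℝ) < A := by exact_mod_cast hA1
  have h1 := large_v hf hA1 hA hp v hv
  have h2 : ‖bc f (p ^ v)‖ ^ 2 ≤
      (((v : ℝ) + 1) ^ Fintype.card ι * (p : ℝ) ^ (-(max 2 ((v : ℝ) / A)) / 2)) ^ 2 :=
    pow_le_pow_left₀ (norm_nonneg _) h1 2
  refine h2.trans ?_
  rw [mul_pow, ← pow_mul, mul_comm (Fintype.card ι) 2]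
  refine mul_le_mul_of_nonneg_left ?_ (by positivity)
  set x : ℝ := (v : ℝ) / A with hx
  have hx0 : 0 ≤ x := by positivity
  rw [← Real.rpow_natCast, ← Real.rpow_mul hp0.le]
  have h3 : (p : ℝ) ^ (-(max 2 x) / 2 * ((2 : ℕ) : ℝ)) =
      (p : ℝ) ^ (-(3 / 2) : ℝ) * (p : ℝ) ^ (-(max 2 x - 3 / 2)) := by
    rw [← Real.rpow_add hp0]
    congr 1
    push_cast
    ring
  rw [h3]
  refine mul_le_mul_of_nonneg_left ?_ (Real.rpow_nonneg hp0.le _)
  have hm : x / 4 ≤ max 2 x - 3 / 2 := by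
    rcases le_total x 2 with h | h
    · rw [max_eq_left h]
      linarith
    · rw [max_eq_right h]
      linarith
  calc (p : ℝ) ^ (-(max 2 x - 3 / 2)) ≤ (p : ℝ) ^ (-x / 4) :=
        Real.rpow_le_rpow_of_exponent_le (by linarith) (by linarith)
    _ ≤ (2 : ℝ) ^ (-x / 4) :=
        Real.rpow_le_rpow_of_nonpos (by norm_num) hp2 (by linarith)

theorem pf_ACS : T_ACS := by
  classical
  intro ι _ f hf hmul
  refine ⟨bc_one hf, bc_mul hf hmul, ?_⟩
  set A : ℕ := (Finset.univ.sup (aa f)) + 1 with hAdef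
  have hA1 : 1 ≤ A := by omega
  have hA0 : (0 : ℝ) < A := by exact_mod_cast hA1
  have hA : ∀ l, aa f l ≤ A := fun l =>
    (Finset.le_sup (f := aa f) (Finset.mem_univ l)).trans (Nat.le_succ _)
  set θ : ℝ := (2 : ℝ) ^ (-(1 / (8 * (A : ℝ)))) with hθ
  have hθ0 : 0 < θ := Real.rpow_pos_of_pos (by norm_num) _
  have hθ1 : θ < 1 := by
    refine Real.rpow_lt_one_of_one_lt_of_neg (by norm_num) ?_
    have : 0 < 1 / (8 * (A : ℝ)) := by positivity
    linarith
  have hθv : ∀ v : ℕ, (2 : ℝ) ^ (-((v : ℝ) / A) / 4) = θ ^ v * θ ^ v := by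
    intro v
    rw [← mul_pow, ← Real.rpow_natCast, hθ, ← Real.rpow_add (by norm_num),
      ← Real.rpow_mul (by norm_num)]
    congr 1
    field_simp
    ring
  obtain ⟨C₀, hC₀⟩ := (tendsto_pow_const_mul_const_pow_of_abs_lt_one
    (2 * Fintype.card ι) (r := θ) (by rw [abs_of_pos hθ0]; exact hθ1)).bddAbove_range
  have hC : ∀ v : ℕ, ((v : ℝ) + 1) ^ (2 * Fintype.card ι) * θ ^ v ≤ C₀ / θ := by
    intro v
    have h1 := hC₀ (mem_range_self (v + 1))
    simp only [Nat.cast_add, Nat.cast_one] at h1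
    rw [le_div_iff₀ hθ0, mul_assoc, ← pow_succ]
    exact h1
  have hCpos : 0 < C₀ / θ := lt_of_lt_of_le (by positivity) (hC 0)
  refine ⟨A, ((A : ℝ) + 1) ^ Fintype.card ι + C₀ / θ, θ, by positivity, hθ0, hθ1, hA, ?_⟩
  intro p hp
  have hp0 : (0 : ℝ) < p := by exact_mod_cast hp.pos
  refine ⟨?_, ?_⟩
  · intro v hv1 hvA
    have h1 := small_v hf hp v hv1
    rw [main_part hf hp v] at h1
    refine h1.trans (div_le_div_of_nonneg_right ?_ hp0.le)
    have h2 : (v : ℝ) + 1 ≤ (A : ℝ) + 1 := by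
      have : (v : ℝ) ≤ A := by exact_mod_cast hvA
      linarith
    have h3 : ((v : ℝ) + 1) ^ Fintype.card ι ≤ ((A : ℝ) + 1) ^ Fintype.card ι :=
      pow_le_pow_left₀ (by positivity) h2 _
    linarith
  · intro v hv
    refine (large_sq hf hA1 hA hp v hv).trans ?_
    rw [hθv v]
    have h4 : 0 ≤ (p : ℝ) ^ (-(3 / 2) : ℝ) := Real.rpow_nonneg hp0.le _
    have h5 : 0 ≤ ((A : ℝ) + 1) ^ Fintype.card ι := by positivity
    have h6 : 0 < θ ^ v := pow_pos hθ0 v
    calc ((v : ℝ) + 1) ^ (2 * Fintype.card ι) * ((p : ℝ) ^ (-(3 / 2) : ℝ) * (θ ^ v * θ ^ v))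
        = (((v : ℝ) + 1) ^ (2 * Fintype.card ι) * θ ^ v) * ((p : ℝ) ^ (-(3 / 2) : ℝ) * θ ^ v) := by
          ring
      _ ≤ (((A : ℝ) + 1) ^ Fintype.card ι + C₀ / θ) * ((p : ℝ) ^ (-(3 / 2) : ℝ) * θ ^ v) := by
          refine mul_le_mul_of_nonneg_right ?_ (by positivity)
          have := hC v
          linarith
      _ = _ := by ring

end Pool.Agent.H69.RS
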